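import Mathlib
import Pool.Agent.H55.HN5
import Pool.Agent.H55.HNDefs

set_option autoImplicit false

namespace Pool.Agent.Results.MP_4d0082_an.OnlyZero

open Pool.Agent.H55.HN Pool.Agent.H55.HNDefs in
theorem result (ψ φ : ℂ → ℂ) (hψ : DifferentiableOn ℂ ψ (Metric.ball 0 1))
    (hφ : DifferentiableOn ℂ φ (Metric.ball 0 1))
    (hm : Set.MapsTo φ (Metric.ball 0 1) (Metric.ball 0 1))
    (hnc : ∃ z ∈ Metric.ball (0 : ℂ) 1, ∃ w ∈ Metric.ball (0 : ℂ) 1, φ z ≠ φ w)
    (hlf : ¬ IsLFT φ) :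
    NormalWCO ψ φ ↔ ∀ z ∈ Metric.ball (0 : ℂ) 1, ψ z = 0 := by
  unfold NormalWCO IsWCO IsNormalOp val
  unfold IsLFT at hlf
  refine ⟨fun ⟨T, hT, hN⟩ => ?_, fun h => ⟨0, fun f z hz => by simp [h z hz], by simp⟩⟩
  by_contra hc
  push Not at hc
  apply hlf
  have hbl : ∀ z ∈ P, bl z ∈ Metric.ball (0 : ℂ) 1 := fun z hz => by simpa using bl_lt hz
  have hne : ∀ s ∈ Metric.ball (0 : ℂ) 1, 1 - s ≠ 0 := by
    intro s hs h
    rw [← sub_eq_zero.1 h] at hs
    simp at hs
  set cay : ℂ → ℂ := fun s => (1 + s) / (1 - s) with hcay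
  have hcP : ∀ s ∈ Metric.ball (0 : ℂ) 1, cay s ∈ P := by
    intro s hs
    have h1 : Complex.normSq s < 1 := by
      rw [Complex.normSq_eq_norm_sq]
      have : ‖s‖ < 1 := by simpa using hs
      nlinarith [norm_nonneg s]
    have h2 : 0 < Complex.normSq (1 - s) := Complex.normSq_pos.2 (hne s hs)
    show 0 < ((1 + s) / (1 - s)).re
    rw [Complex.div_re, ← add_div]
    refine div_pos ?_ h2
    rw [Complex.normSq_apply] at h1
    simp
    nlinarith
  have hbc : ∀ s ∈ Metric.ball (0 : ℂ) 1, bl (cay s) = s := by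
    intro s hs
    have h1 := hne s hs
    rw [bl, div_eq_iff (add_one_ne (hcP s hs))]
    simp only [hcay]
    field_simp
    ring
  have hcd : DifferentiableOn ℂ cay (Metric.ball 0 1) :=
    DifferentiableOn.div (c := fun s : ℂ => 1 + s) (d := fun s : ℂ => 1 - s) (by fun_prop)
      (by fun_prop) hne
  have hev : ∀ g : H, ∀ z ∈ P, ev g z = e0 z * ∑' n, g n * bl z ^ n := by
    intro g z hz
    rw [ev, lp.inner_eq_tsum, ← tsum_mul_left]
    refine tsum_congr fun n => ?_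
    rw [K_apply hz]
    simp; ring
  set Φ : ℂ → ℂ := fun z => cay (φ (bl z)) with hΦ
  have hΦd : DifferentiableOn ℂ Φ P :=
    hcd.comp (hφ.comp bl_diff hbl) fun z hz => hm (hbl z hz)
  have hΦm : Set.MapsTo Φ P P := fun z hz => hcP _ (hm (hbl z hz))
  have hΦb : ∀ z ∈ P, bl (Φ z) = φ (bl z) := fun z hz => hbc _ (hm (hbl z hz))
  obtain ⟨a, b, c, d, hdet, h⟩ := wco (fun z => e0 z * ψ (bl z) / e0 (Φ z)) Φ hΦd hΦm
    ((e0_diff.mul (hψ.comp bl_diff hbl)).div (e0_diff.comp hΦd hΦm)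
      fun z hz => e0_ne (hΦm hz))
    (by
      obtain ⟨s, hs, h⟩ := hc
      refine ⟨cay s, hcP s hs, div_ne_zero (mul_ne_zero (e0_ne (hcP s hs)) ?_)
        (e0_ne (hΦm (hcP s hs)))⟩
      rwa [hbc s hs])
    (by
      by_contra h
      push Not at h
      obtain ⟨z, hz, w, hw, h1⟩ := hnc
      apply h1
      have e1 := hΦb _ (hcP z hz)
      have e2 := hΦb _ (hcP w hw)
      rw [hbc z hz, ← sub_eq_zero.1 (h _ (hcP z hz))] at e1
      rw [hbc w hw, ← sub_eq_zero.1 (h _ (hcP w hw))] at e2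
      rw [← e1, ← e2])
    T (fun g z hz => by
      have := e0_ne (hΦm hz)
      rw [hev _ z hz, hev _ _ (hΦm hz), hT g _ (hbl z hz), hΦb z hz]
      field_simp)
    (fun g => by
      have h1 := congrArg (fun S : H →L[ℂ] H => inner ℂ g (S g)) hN
      simp only [ContinuousLinearMap.comp_apply] at h1
      rw [ContinuousLinearMap.adjoint_inner_right,
        ← ContinuousLinearMap.adjoint_inner_left T (ContinuousLinearMap.adjoint T g) g,
        inner_self_eq_norm_sq_to_K, inner_self_eq_norm_sq_to_K] at h1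
      have h2 : ‖T g‖ ^ 2 = ‖ContinuousLinearMap.adjoint T g‖ ^ 2 := by exact_mod_cast h1
      exact (pow_left_inj₀ (norm_nonneg _) (norm_nonneg _) two_ne_zero).1 h2)
  refine ⟨a - b - c + d, a + b - c - d, a - b + c - d, a + b + c + d, fun h0 => hdet (by
    linear_combination (1 / 4) * h0), fun s hs => ?_⟩
  obtain ⟨h1, h2⟩ := h _ (hcP s hs)
  have h3 := hΦb _ (hcP s hs)
  have h4 := add_one_ne (hΦm (hcP s hs))
  have h5 := hne s hs
  rw [hbc s hs, bl, div_eq_iff h4] at h3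
  rw [eq_div_iff h1] at h2
  have h6 : (1 - s) * cay s = 1 + s := by simp only [hcay]; field_simp
  have h7 : (a - b + c - d) * s + (a + b + c + d) =
      (1 - s) * (c * cay s + d) * (Φ (cay s) + 1) := by
    linear_combination -(1 - s) * h2 - (a + c) * h6
  have h8 : (a - b + c - d) * s + (a + b + c + d) ≠ 0 := by
    rw [h7]; exact mul_ne_zero (mul_ne_zero h5 h1) h4
  refine ⟨h8, eq_div_of_mul_eq h8 ?_⟩
  rw [h7]
  linear_combination -(1 - s) * (c * cay s + d) * h3 + (1 - s) * h2 + (a - c) * h6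

end Pool.Agent.Results.MP_4d0082_an.OnlyZero
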